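import Pool.Agent.W_448fy_h63.YD

/-! Order of the window polynomial of a Young shape, coordinate form (MP_448cb3_co). -/

namespace Pool.Agent.GaussPoset.Yg

set_option linter.unusedSectionVars false

open Finset

universe u

variable {Q : Type u} [Fintype Q] [PartialOrder Q] [DecidableEq Q]

/-- `Q` has coordinates in a Young shape (the greatest cell is `(0,0)`), `k ≤ i + 1`, and the cell
`(k - 1, i)` belongs to the shape (if `k > 0`): the window polynomial at `i` has order at least `k`. -/
theorem young_dvd_co (co : Q → ℕ × ℕ) (hinj : Function.Injective co)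
    (hle : ∀ x y : Q, x ≤ y ↔ co y ≤ co x) (hlow : ∀ x : Q, ∀ c ≤ co x, ∃ y, co y = c)
    {i k : ℕ} (hk : k ≤ i + 1) (hcell : ∀ s, s + 1 = k → ∃ x, co x = (s, i)) :
    (1 + Polynomial.X : Polynomial (PowerSeries ℤ)) ^ k ∣ W Q i := by
  classical
  rcases Nat.eq_zero_or_pos k with rfl | hk0
  · rw [pow_zero]
    exact one_dvd _
  obtain ⟨x0, hx0⟩ := hcell (k - 1) (by omega)
  set l := (univ : Finset Q).sup (fun x => (co x).1 + 1) with hl
  set n := (univ : Finset Q).sup (fun x => (co x).2 + 1) with hn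
  have hl1 : ∀ x : Q, (co x).1 < l := fun x =>
    Nat.lt_of_succ_le (le_sup (f := fun x : Q => (co x).1 + 1) (mem_univ x))
  have hn1 : ∀ x : Q, (co x).2 < n := fun x =>
    Nat.lt_of_succ_le (le_sup (f := fun x : Q => (co x).2 + 1) (mem_univ x))
  let lam : Fin l → ℕ := fun s => ((range n).filter (fun c => ∃ x, co x = ((s : ℕ), c))).card
  have hfil : ∀ s : Fin l, ∀ c : ℕ, (∃ x, co x = ((s : ℕ), c)) ↔ c < lam s := by
    intro s c
    have h1 : ∀ c c' : ℕ, c' ≤ c → (∃ x, co x = ((s : ℕ), c)) → ∃ x, co x = ((s : ℕ), c') := by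
      rintro c c' hc ⟨x, hx⟩
      exact hlow x _ (by rw [hx]; exact ⟨le_rfl, hc⟩)
    constructor
    · intro h
      have h2 : range (c + 1) ⊆ (range n).filter (fun c => ∃ x, co x = ((s : ℕ), c)) := by
        intro c' hc'
        rw [mem_range] at hc'
        obtain ⟨x, hx⟩ := h1 c c' (by omega) h
        rw [mem_filter, mem_range]
        refine ⟨?_, x, hx⟩
        have := hn1 x
        rw [hx] at this
        exact this
      have h3 := card_le_card h2
      rw [card_range] at h3
      exact h3
    · intro h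
      by_contra hcon
      have h2 : (range n).filter (fun c => ∃ x, co x = ((s : ℕ), c)) ⊆ range c := by
        intro c' hc'
        rw [mem_filter] at hc'
        rw [mem_range]
        by_contra h3
        exact hcon (h1 c' c (by omega) hc'.2)
      have h3 := card_le_card h2
      rw [card_range] at h3
      have h4 : lam s ≤ c := h3
      omega
  have hanti : Antitone lam := by
    intro s s' hs
    by_contra hcon
    obtain ⟨x, hx⟩ := (hfil s' (lam s)).2 (by omega)
    obtain ⟨y, hy⟩ := hlow x ((s : ℕ), lam s) (by rw [hx]; exact ⟨hs, le_rfl⟩)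
    have := (hfil s (lam s)).1 ⟨y, hy⟩
    omega
  have hlen : ∀ s, lam s ≤ n := by
    intro s
    have h1 := card_filter_le (range n) (fun c => ∃ x, co x = ((s : ℕ), c))
    rw [card_range] at h1
    exact h1
  let toF : Q → {p : Fin l × Fin n // (p.2 : ℕ) < lam p.1} := fun x =>
    ⟨(⟨(co x).1, hl1 x⟩, ⟨(co x).2, hn1 x⟩), (hfil ⟨(co x).1, hl1 x⟩ (co x).2).1 ⟨x, rfl⟩⟩
  have hbij : Function.Bijective toF := by
    constructor
    · intro x y hxy
      have h1 := congrArg (fun p => ((p.1.1 : ℕ), (p.1.2 : ℕ))) hxy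
      exact hinj h1
    · rintro ⟨⟨s, c⟩, hp⟩
      obtain ⟨x, hx⟩ := (hfil s c).2 hp
      refine ⟨x, ?_⟩
      apply Subtype.ext
      apply Prod.ext
      · apply Fin.ext
        change (co x).1 = s
        rw [hx]
      · apply Fin.ext
        change (co x).2 = c
        rw [hx]
  have hx1 := hl1 x0
  rw [hx0] at hx1
  refine young_dvd hanti hlen (Equiv.ofBijective toF hbij) ?_ (i := i) (k := k) ?_ ?_
  · intro x y
    rw [hle]
    rfl
  · simp only at hx1
    omega
  · intro s hs
    refine ⟨by omega, ?_⟩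
    obtain ⟨y, hy⟩ := hlow x0 ((s : ℕ), i) (by
      rw [hx0]
      exact ⟨by simp only; omega, le_rfl⟩)
    exact (hfil s i).1 ⟨y, hy⟩

end Pool.Agent.GaussPoset.Yg
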