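import Pool.Agent.W_448fy_h63.YB

/-! Plane partitions of a Young shape and the row determinant (MP_448cb3_co). -/

namespace Pool.Agent.GaussPoset.Yg

set_option linter.unusedSectionVars false

open Finset

section cnt

variable {l n : ℕ}

open Classical in
/-- arrays with entries at most `m`, weakly decreasing, zero outside the shape -/
noncomputable def FY (n m : ℕ) (lam : Fin l → ℕ) : Finset (Fin l × Fin n → ℕ) :=
  (Fintype.piFinset fun _ => range (m + 1)).filter
    (fun f => Antitone f ∧ ∀ p, lam p.1 ≤ p.2 → f p = 0)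

lemma mem_FY {m : ℕ} {lam : Fin l → ℕ} {f : Fin l × Fin n → ℕ} :
    f ∈ FY n m lam ↔ (∀ p, f p ≤ m) ∧ Antitone f ∧ ∀ p, lam p.1 ≤ p.2 → f p = 0 := by
  classical
  unfold FY
  rw [mem_filter, Fintype.mem_piFinset]
  simp only [mem_range, Nat.lt_succ_iff]

/-- generating function -/
noncomputable def UY {R : Type*} [CommRing R] (q : R) (n m : ℕ) (lam : Fin l → ℕ) : R :=
  ∑ f ∈ FY n m lam, q ^ ∑ p, f p

variable {lam : Fin l → ℕ}

lemma cor_pos {s : Fin l} (hs : s ∈ cor lam) : 1 ≤ lam s := by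
  have := (mem_filter.1 hs).2
  omega

/-- the corner cell of a row -/
def cc (hn : ∀ s, lam s ≤ n) (s : Fin l) (hs : s ∈ cor lam) : Fin l × Fin n :=
  (s, ⟨lam s - 1, by have := hn s; have := cor_pos hs; omega⟩)

open Classical in
/-- rows whose corner cell has entry zero -/
noncomputable def Zr (hn : ∀ s, lam s ≤ n) (f : Fin l × Fin n → ℕ) : Finset (Fin l) :=
  (cor lam).filter (fun s => ∀ c : Fin n, (c : ℕ) + 1 = lam s → f (s, c) = 0)

lemma mem_FY_subT (hn : ∀ s, lam s ≤ n) {m : ℕ} {T : Finset (Fin l)} (hT : T ⊆ cor lam)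
    {f : Fin l × Fin n → ℕ} :
    f ∈ FY n m (subT lam T) ↔ f ∈ FY n m lam ∧ T ⊆ Zr hn f := by
  rw [mem_FY, mem_FY]
  constructor
  · rintro ⟨h1, h2, h3⟩
    refine ⟨⟨h1, h2, fun p hp => h3 p ?_⟩, fun s hs => ?_⟩
    · unfold subT
      split_ifs <;> omega
    · unfold Zr
      rw [mem_filter]
      refine ⟨hT hs, fun c hc => h3 (s, c) ?_⟩
      unfold subT
      simp only [if_pos hs]
      omega
  · rintro ⟨⟨h1, h2, h3⟩, h4⟩
    refine ⟨h1, h2, fun p hp => ?_⟩
    by_cases hp2 : lam p.1 ≤ p.2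
    · exact h3 p hp2
    · unfold subT at hp
      by_cases hs : p.1 ∈ T
      · have h5 := h4 hs
        unfold Zr at h5
        rw [mem_filter] at h5
        rw [if_pos hs] at hp
        exact h5.2 p.2 (by omega)
      · rw [if_neg hs] at hp
        exact absurd hp hp2

/-- below every cell there is a corner cell -/
lemma exists_cor (hn : ∀ s, lam s ≤ n) (p : Fin l × Fin n) (hp : (p.2 : ℕ) < lam p.1) :
    ∃ s ∈ cor lam, ∃ c : Fin n, (c : ℕ) + 1 = lam s ∧ p ≤ (s, c) := by
  classical
  set S : Finset (Fin l) := univ.filter (fun s => (p.2 : ℕ) < lam s) with hS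
  have hne : S.Nonempty := ⟨p.1, mem_filter.2 ⟨mem_univ _, hp⟩⟩
  have h1 := S.max'_mem hne
  set s := S.max' hne with hs
  have h2 : (p.2 : ℕ) < lam s := (mem_filter.1 h1).2
  have h3 : p.1 ≤ s := S.le_max' _ (mem_filter.2 ⟨mem_univ _, hp⟩)
  refine ⟨s, ?_, ⟨lam s - 1, by have := hn s; omega⟩, by simp only; omega, ?_⟩
  · unfold cor
    rw [mem_filter]
    refine ⟨mem_univ _, ?_⟩
    unfold nx
    split_ifs with h4
    · by_contra hcon
      have h5 : (⟨(s : ℕ) + 1, h4⟩ : Fin l) ∈ S := mem_filter.2 ⟨mem_univ _, by omega⟩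
      have h6 := S.le_max' _ h5
      rw [← hs, Fin.le_def] at h6
      simp at h6
    · omega
  · rw [Prod.le_def]
    refine ⟨h3, ?_⟩
    rw [Fin.le_def]
    simp only
    omega

lemma Zr_empty_iff (hn : ∀ s, lam s ≤ n) {m : ℕ} {f : Fin l × Fin n → ℕ} (hf : f ∈ FY n m lam) :
    Zr hn f = ∅ ↔ ∀ p : Fin l × Fin n, (p.2 : ℕ) < lam p.1 → 1 ≤ f p := by
  classical
  rw [mem_FY] at hf
  constructor
  · intro h p hp
    obtain ⟨s, hs, c, hc, hle⟩ := exists_cor hn p hp
    by_contra hcon
    have h1 := hf.2.1 hle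
    have h2 : s ∈ Zr hn f := by
      unfold Zr
      rw [mem_filter]
      refine ⟨hs, fun c' hc' => ?_⟩
      have : c' = c := Fin.ext (by omega)
      rw [this]
      omega
    rw [h] at h2
    exact absurd h2 (notMem_empty _)
  · intro h
    rw [eq_empty_iff_forall_notMem]
    intro s hs
    unfold Zr at hs
    rw [mem_filter] at hs
    have h1 := cor_pos hs.1
    have h2 := hn s
    have h3 := h (s, ⟨lam s - 1, by omega⟩) (by simp only; omega)
    have h4 := hs.2 ⟨lam s - 1, by omega⟩ (by simp only; omega)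
    omega

lemma sum_shape (hn : ∀ s, lam s ≤ n) :
    ∑ p : Fin l × Fin n, (if (p.2 : ℕ) < lam p.1 then 1 else 0) = ∑ s, lam s := by
  rw [Fintype.sum_prod_type]
  refine sum_congr rfl fun s _ => ?_
  have h1 : ∑ x : Fin n, (if (x : ℕ) < lam s then 1 else 0) =
      ∑ x ∈ range n, (if x < lam s then 1 else 0) := by
    rw [Finset.sum_range]
  simp only
  rw [h1, ← card_filter]
  have h2 : (range n).filter (fun x => x < lam s) = range (lam s) := by
    ext x
    rw [mem_filter, mem_range, mem_range]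
    have := hn s
    omega
  rw [h2, card_range]

variable {R : Type*} [CommRing R]

/-- the recursion for the generating function -/
theorem UY_rec (q : R) (h : Antitone lam) (hn : ∀ s, lam s ≤ n) (m : ℕ) :
    ∑ T ∈ (cor lam).powerset, (-1) ^ T.card * UY q n (m + 1) (subT lam T) =
      q ^ (∑ s, lam s) * UY q n m lam := by
  classical
  have h1 : ∀ T ∈ (cor lam).powerset, (-1) ^ T.card * UY q n (m + 1) (subT lam T) =
      ∑ f ∈ FY n (m + 1) lam, (if T ⊆ Zr hn f then (-1) ^ T.card * q ^ ∑ p, f p else 0) := by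
    intro T hT
    rw [mem_powerset] at hT
    unfold UY
    rw [mul_sum, ← sum_filter]
    refine sum_congr ?_ fun _ _ => rfl
    ext f
    rw [mem_filter, mem_FY_subT hn hT]
  rw [sum_congr rfl h1, sum_comm]
  have h2 : ∀ f ∈ FY n (m + 1) lam, ∑ T ∈ (cor lam).powerset,
      (if T ⊆ Zr hn f then (-1) ^ T.card * q ^ ∑ p, f p else 0) =
      if Zr hn f = ∅ then q ^ ∑ p, f p else 0 := by
    intro f _
    rw [← sum_filter]
    have e1 : (cor lam).powerset.filter (fun T => T ⊆ Zr hn f) = (Zr hn f).powerset := by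
      ext T
      rw [mem_filter, mem_powerset, mem_powerset]
      refine ⟨fun h => h.2, fun h => ⟨h.trans ?_, h⟩⟩
      unfold Zr
      exact filter_subset _ _
    rw [e1, ← sum_mul]
    have e2 := congrArg (Int.cast : ℤ → R) (sum_powerset_neg_one_pow_card (x := Zr hn f))
    rw [Int.cast_sum] at e2
    have e3 : ∑ T ∈ (Zr hn f).powerset, ((-1 : R)) ^ T.card = if Zr hn f = ∅ then 1 else 0 := by
      rw [show (if Zr hn f = ∅ then (1 : R) else 0) =
        (((if Zr hn f = ∅ then (1 : ℤ) else 0) : ℤ) : R) by split_ifs <;> simp, ← e2]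
      refine sum_congr rfl fun T _ => ?_
      push_cast
      rfl
    rw [e3]
    split_ifs <;> simp
  rw [sum_congr rfl h2, ← sum_filter]
  unfold UY
  rw [mul_sum]
  refine sum_bij' (fun f _ p => f p - 1) (fun g _ p => if (p.2 : ℕ) < lam p.1 then g p + 1 else 0)
    ?_ ?_ ?_ ?_ ?_
  · intro f hf
    rw [mem_filter] at hf
    obtain ⟨hf1, hf2⟩ := hf
    rw [mem_FY] at hf1 ⊢
    refine ⟨fun p => ?_, fun p p' hp => ?_, fun p hp => ?_⟩
    · have := hf1.1 p
      omega
    · have := hf1.2.1 hp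
      simp only
      omega
    · have := hf1.2.2 p hp
      omega
  · intro g hg
    rw [mem_FY] at hg
    have hmem : (fun p : Fin l × Fin n => if (p.2 : ℕ) < lam p.1 then g p + 1 else 0) ∈
        FY n (m + 1) lam := by
      rw [mem_FY]
      refine ⟨fun p => ?_, fun p p' hp => ?_, fun p hp => ?_⟩
      · have := hg.1 p
        split_ifs <;> omega
      · have h3 := hg.2.1 hp
        have h4 := h hp.1
        have h5 : (p.2 : ℕ) ≤ p'.2 := hp.2
        simp only
        split_ifs <;> omega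
      · rw [if_neg (by omega)]
    rw [mem_filter]
    refine ⟨hmem, (Zr_empty_iff hn hmem).2 fun p hp => ?_⟩
    rw [if_pos hp]
    omega
  · intro f hf
    rw [mem_filter] at hf
    obtain ⟨hf1, hf2⟩ := hf
    rw [Zr_empty_iff hn hf1] at hf2
    rw [mem_FY] at hf1
    funext p
    simp only
    by_cases hp : (p.2 : ℕ) < lam p.1
    · rw [if_pos hp]
      have := hf2 p hp
      omega
    · rw [if_neg hp]
      have := hf1.2.2 p (by omega)
      omega
  · intro g hg
    rw [mem_FY] at hg
    funext p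
    simp only
    by_cases hp : (p.2 : ℕ) < lam p.1
    · rw [if_pos hp]
      omega
    · rw [if_neg hp]
      have := hg.2.2 p (by omega)
      omega
  · intro f hf
    rw [mem_filter] at hf
    obtain ⟨hf1, hf2⟩ := hf
    rw [Zr_empty_iff hn hf1] at hf2
    rw [mem_FY] at hf1
    rw [← pow_add, ← sum_shape hn, ← sum_add_distrib]
    congr 1
    refine sum_congr rfl fun p _ => ?_
    by_cases hp : (p.2 : ℕ) < lam p.1
    · rw [if_pos hp]
      have := hf2 p hp
      omega
    · rw [if_neg hp]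
      have := hf1.2.2 p (by omega)
      omega

lemma FY_m0 (n : ℕ) (lam : Fin l → ℕ) : FY n 0 lam = {fun _ => 0} := by
  ext f
  rw [mem_FY, mem_singleton]
  constructor
  · rintro ⟨h1, -, -⟩
    funext p
    have := h1 p
    omega
  · rintro rfl
    exact ⟨fun _ => le_rfl, fun _ _ _ => le_rfl, fun _ _ => rfl⟩

lemma UY_m0 (q : R) (n : ℕ) (lam : Fin l → ℕ) : UY q n 0 lam = 1 := by
  unfold UY
  rw [FY_m0]
  simp

lemma FY_n0 (n m : ℕ) (h0 : ∀ s, lam s = 0) : FY n m lam = {fun _ => 0} := by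
  ext f
  rw [mem_FY, mem_singleton]
  constructor
  · rintro ⟨-, -, h1⟩
    funext p
    exact h1 p (by rw [h0]; exact Nat.zero_le _)
  · rintro rfl
    exact ⟨fun _ => Nat.zero_le _, fun _ _ _ => le_rfl, fun _ _ => rfl⟩

lemma UY_n0 (q : R) (n m : ℕ) (h0 : ∀ s, lam s = 0) : UY q n m lam = 1 := by
  unfold UY
  rw [FY_n0 n m h0]
  simp

lemma subT_anti (h : Antitone lam) {T : Finset (Fin l)} (hT : T ⊆ cor lam) :
    Antitone (subT lam T) := by
  intro s s' hs
  rcases eq_or_lt_of_le hs with h1 | h1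
  · rw [h1]
  have h2 := h hs
  unfold subT
  by_cases h3 : s ∈ T
  · have h4 := (mem_filter.1 (hT h3)).2
    have h5 : lam s' ≤ nx lam s := by
      unfold nx
      have h6 : (s : ℕ) + 1 < l := by
        have h7 : (s : ℕ) < s' := h1
        have := s'.2
        omega
      rw [dif_pos h6]
      refine h ?_
      rw [Fin.le_def]
      have h7 : (s : ℕ) < s' := h1
      simp only
      omega
    split_ifs <;> omega
  · split_ifs <;> omega

lemma subT_le {T : Finset (Fin l)} (s : Fin l) : subT lam T s ≤ lam s := by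
  unfold subT
  split_ifs <;> omega

lemma subT_empty : subT lam ∅ = lam := by
  funext s
  unfold subT
  rw [if_neg (notMem_empty _)]

lemma subT_sum {T : Finset (Fin l)} (hT : T ⊆ cor lam) (hne : T ≠ ∅) :
    ∑ s, subT lam T s < ∑ s, lam s := by
  obtain ⟨s, hs⟩ := nonempty_iff_ne_empty.2 hne
  refine sum_lt_sum (fun i _ => subT_le i) ⟨s, mem_univ _, ?_⟩
  unfold subT
  rw [if_pos hs]
  have := cor_pos (hT hs)
  omega

/-- the generating function of the plane partitions of a Young shape is the row determinant -/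
theorem UY_eq [IsDomain R] {q : R} (hq : q ≠ 0) : ∀ (N : ℕ) (m : ℕ) (lam : Fin l → ℕ),
    Antitone lam → (∀ s, lam s ≤ n) → m + ∑ s, lam s ≤ N → UY q n m lam = DY q m lam := by
  intro N
  induction N with
  | zero =>
    intro m lam _ _ hN
    obtain rfl : m = 0 := by omega
    rw [UY_m0, DY_m0]
  | succ N ih =>
    intro m lam h hn hN
    rcases Nat.eq_zero_or_pos m with rfl | hm
    · rw [UY_m0, DY_m0]
    obtain ⟨m, rfl⟩ : ∃ m', m = m' + 1 := ⟨m - 1, by omega⟩
    have e1 := UY_rec q h hn m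
    have e2 := DY_rec hq h m
    rw [← add_sum_erase _ _ (empty_mem_powerset (cor lam)), subT_empty] at e1 e2
    rw [ih m lam h hn (by omega)] at e1
    have e3 : ∑ T ∈ (cor lam).powerset.erase ∅, (-1) ^ T.card * UY q n (m + 1) (subT lam T) =
        ∑ T ∈ (cor lam).powerset.erase ∅, (-1) ^ T.card * DY q (m + 1) (subT lam T) := by
      refine sum_congr rfl fun T hT => ?_
      rw [mem_erase, mem_powerset] at hT
      have h1 := subT_sum hT.2 hT.1
      rw [ih (m + 1) (subT lam T) (subT_anti h hT.2) (fun s => (subT_le s).trans (hn s)) (by omega)]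
    rw [e3] at e1
    rw [card_empty, pow_zero, one_mul] at e1 e2
    rw [← e2] at e1
    exact add_right_cancel e1

end cnt

end Pool.Agent.GaussPoset.Yg
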