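import Mathlib

/-! Gaussian binomials and the entries of the row determinant of a Young diagram (MP_448cb3_co). -/

namespace Pool.Agent.GaussPoset.Yg

set_option linter.unusedSectionVars false

open Finset

section alg

variable {R : Type*} [CommRing R]

/-- Gaussian binomial coefficient -/
def qb (q : R) : ℕ → ℕ → R
  | _, 0 => 1
  | 0, _ + 1 => 0
  | n + 1, k + 1 => qb q n k + q ^ (k + 1) * qb q n (k + 1)

lemma qb_zero (q : R) (n : ℕ) : qb q n 0 = 1 := by
  cases n <;> rfl

lemma qb_zero_succ (q : R) (k : ℕ) : qb q 0 (k + 1) = 0 := rfl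

lemma qb_succ (q : R) (n k : ℕ) :
    qb q (n + 1) (k + 1) = qb q n k + q ^ (k + 1) * qb q n (k + 1) := rfl

lemma qb_gt (q : R) : ∀ n k : ℕ, n < k → qb q n k = 0 := by
  intro n
  induction n with
  | zero =>
    intro k hk
    obtain ⟨k, rfl⟩ : ∃ k', k = k' + 1 := ⟨k - 1, by omega⟩
    rfl
  | succ n ih =>
    intro k hk
    obtain ⟨k, rfl⟩ : ∃ k', k = k' + 1 := ⟨k - 1, by omega⟩
    rw [qb_succ, ih k (by omega), ih (k + 1) (by omega), mul_zero, add_zero]

lemma qb_self (q : R) : ∀ n : ℕ, qb q n n = 1 := by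
  intro n
  induction n with
  | zero => rfl
  | succ n ih => rw [qb_succ, ih, qb_gt q n (n + 1) (by omega), mul_zero, add_zero]

/-- product formula -/
theorem qb_prod (q : R) : ∀ n k : ℕ,
    qb q n k * ∏ u ∈ range k, (1 - q ^ (u + 1)) = ∏ u ∈ range k, (1 - q ^ (n - u)) := by
  intro n
  induction n with
  | zero =>
    intro k
    rcases Nat.eq_zero_or_pos k with rfl | hk
    · simp [qb_zero]
    · rw [qb_gt q 0 k hk, zero_mul]
      symm
      exact prod_eq_zero (mem_range.2 hk) (by simp)
  | succ n ih =>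
    intro k
    rcases Nat.eq_zero_or_pos k with rfl | hk
    · simp [qb_zero]
    obtain ⟨k, rfl⟩ : ∃ k', k = k' + 1 := ⟨k - 1, by omega⟩
    have h1 := ih k
    have h2 := ih (k + 1)
    rw [prod_range_succ, prod_range_succ] at h2
    rw [qb_succ, prod_range_succ' (fun u => 1 - q ^ (n + 1 - u))]
    have h3 : ∏ u ∈ range k, (1 - q ^ (n + 1 - (u + 1))) = ∏ u ∈ range k, (1 - q ^ (n - u)) :=
      prod_congr rfl fun u _ => by rw [show n + 1 - (u + 1) = n - u by omega]
    rw [h3, prod_range_succ, Nat.sub_zero]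
    rcases Nat.lt_or_ge n k with hnk | hnk
    · have h0 : ∏ u ∈ range k, (1 - q ^ (n - u)) = 0 :=
        prod_eq_zero (mem_range.2 hnk) (by simp)
      rw [h0] at h1 h2 ⊢
      rw [qb_gt q n (k + 1) (by omega), mul_zero, add_zero, zero_mul, ← mul_assoc, h1, zero_mul]
    · have e : q ^ (k + 1) * q ^ (n - k) = q ^ (n + 1) := by
        rw [← pow_add, show k + 1 + (n - k) = n + 1 by omega]
      linear_combination (1 - q ^ (k + 1)) * h1 + q ^ (k + 1) * h2 -
        (∏ u ∈ range k, (1 - q ^ (n - u))) * e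

/-- exponent `(t - s + 1)(t - s)/2` -/
def tr (s t : ℕ) : ℕ := if s ≤ t then (t - s + 1).choose 2 else (s - t).choose 2

lemma tr_succ (s t : ℕ) : s + tr s t = t + tr (s + 1) t := by
  unfold tr
  rcases Nat.lt_trichotomy s t with h | h | h
  · rw [if_pos h.le, if_pos (by omega)]
    obtain ⟨d, rfl⟩ : ∃ d, t = s + d + 1 := ⟨t - s - 1, by omega⟩
    rw [show s + d + 1 - s + 1 = (d + 1) + 1 by omega, show s + d + 1 - (s + 1) + 1 = d + 1 by omega,
      show ((d + 1) + 1).choose 2 = (d + 1).choose 1 + (d + 1).choose 2 from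
        Nat.choose_succ_succ' (d + 1) 1, Nat.choose_one_right]
    omega
  · subst h
    rw [if_pos le_rfl, if_neg (by omega)]
    simp
  · rw [if_neg (by omega), if_neg (by omega)]
    obtain ⟨d, rfl⟩ : ∃ d, s = t + d := ⟨s - t, by omega⟩
    rw [show t + d - t = d by omega, show t + d + 1 - t = d + 1 by omega,
      show (d + 1).choose 2 = d.choose 1 + d.choose 2 from Nat.choose_succ_succ' d 1,
      Nat.choose_one_right]
    omega

lemma tr_self (s : ℕ) : tr s s = 0 := by
  unfold tr
  rw [if_pos le_rfl]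
  simp

/-- entry of the determinant: row `s`, column `t`, row length `n`, bound `m` -/
def ent (q : R) (s t n m : ℕ) : R :=
  if s ≤ n + t then q ^ tr s t * qb q (m + n) (n + t - s) else 0

/-- shortening a row by one, positive length -/
theorem ent_sub (q : R) (s t n m : ℕ) :
    q ^ s * (ent q s t (n + 1) (m + 1) - ent q s t n (m + 1)) =
      q ^ (n + 1) * (q ^ t * ent q s t (n + 1) m) := by
  unfold ent
  rcases Nat.lt_trichotomy s (n + 1 + t) with h | h | h
  · rw [if_pos h.le, if_pos (by omega), if_pos h.le]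
    obtain ⟨K, hK⟩ : ∃ K, n + t - s = K := ⟨_, rfl⟩
    rw [show n + 1 + t - s = K + 1 by omega, hK, show m + 1 + (n + 1) = (m + (n + 1)) + 1 by omega,
      show m + 1 + n = m + (n + 1) by omega, qb_succ]
    have e : q ^ s * q ^ (K + 1) = q ^ (n + 1) * q ^ t := by
      rw [← pow_add, ← pow_add, show s + (K + 1) = n + 1 + t by omega]
    linear_combination (q ^ tr s t * qb q (m + (n + 1)) (K + 1)) * e
  · rw [if_pos h.le, if_neg (by omega), if_pos h.le, h, show n + 1 + t - (n + 1 + t) = 0 by omega,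
      qb_zero, qb_zero, pow_add]
    ring
  · rw [if_neg (by omega), if_neg (by omega), if_neg (by omega)]
    ring

/-- the shortened row is a multiple of the next row -/
theorem ent_next (q : R) (s t n m : ℕ) :
    q ^ s * ent q s t n (m + 1) = q ^ t * ent q (s + 1) t (n + 1) m := by
  unfold ent
  by_cases h : s ≤ n + t
  · rw [if_pos h, if_pos (by omega), ← mul_assoc, ← mul_assoc, ← pow_add, ← pow_add, tr_succ,
      show m + 1 + n = m + (n + 1) by omega, show n + 1 + t - (s + 1) = n + t - s by omega]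
  · rw [if_neg h, if_neg (by omega), mul_zero, mul_zero]

/-- empty row -/
theorem ent_zero (q : R) (s t m : ℕ) :
    q ^ s * ent q s t 0 (m + 1) = q ^ t * ent q s t 0 m + q ^ t * ent q (s + 1) t 0 m := by
  unfold ent
  simp only [zero_add, add_zero]
  rcases Nat.lt_trichotomy s t with h | h | h
  · rw [if_pos h.le, if_pos h.le, if_pos (show s + 1 ≤ t by omega)]
    obtain ⟨K, hK⟩ : ∃ K, t - (s + 1) = K := ⟨_, rfl⟩
    rw [show t - s = K + 1 by omega, hK, qb_succ]
    have e : q ^ s * q ^ (K + 1) = q ^ t := by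
      rw [← pow_add, show s + (K + 1) = t by omega]
    have e2 : q ^ s * q ^ tr s t = q ^ t * q ^ tr (s + 1) t := by
      rw [← pow_add, ← pow_add, tr_succ]
    linear_combination (q ^ tr s t * qb q m (K + 1)) * e + (qb q m K) * e2
  · subst h
    rw [if_pos le_rfl, if_pos le_rfl, if_neg (by omega), Nat.sub_self, qb_zero, qb_zero]
    ring
  · rw [if_neg (by omega), if_neg (by omega), if_neg (by omega)]
    ring

/-- bound zero: lower unitriangular -/
lemma ent_m0 (q : R) (s t n : ℕ) (h : s ≤ t) : ent q s t n 0 = if s = t then 1 else 0 := by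
  unfold ent
  rw [if_pos (by omega)]
  by_cases h1 : s = t
  · subst h1
    rw [if_pos rfl, tr_self, pow_zero, one_mul, show n + s - s = n by omega, Nat.zero_add, qb_self]
  · rw [if_neg h1, qb_gt q _ _ (by omega), mul_zero]

/-- empty rows: upper unitriangular -/
lemma ent_n0 (q : R) (s t m : ℕ) (h : t ≤ s) : ent q s t 0 m = if s = t then 1 else 0 := by
  unfold ent
  by_cases h1 : s = t
  · subst h1
    rw [if_pos rfl, if_pos (by omega), tr_self, pow_zero, one_mul, Nat.zero_add, Nat.sub_self,
      qb_zero]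
  · rw [if_neg h1, if_neg (by omega)]

end alg

end Pool.Agent.GaussPoset.Yg
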