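import Pool.Agent.W_448fy_h63.YA

/-! The recursion of the row determinant of a Young diagram (MP_448cb3_co). -/

namespace Pool.Agent.GaussPoset.Yg

set_option linter.unusedSectionVars false

open Finset Matrix

section alg

variable {R : Type*} [CommRing R] {l : ℕ}

/-- the row determinant -/
def DY (q : R) (m : ℕ) (lam : Fin l → ℕ) : R :=
  Matrix.det (Matrix.of fun s t : Fin l => ent q s t (lam s) m)

/-- length of the next row -/
def nx (lam : Fin l → ℕ) (s : Fin l) : ℕ := if h : (s : ℕ) + 1 < l then lam ⟨s + 1, h⟩ else 0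

/-- rows which end in a corner -/
def cor (lam : Fin l → ℕ) : Finset (Fin l) := univ.filter (fun s => nx lam s < lam s)

/-- remove the last cell of the rows in `T` -/
def subT (lam : Fin l → ℕ) (T : Finset (Fin l)) : Fin l → ℕ :=
  fun s => if s ∈ T then lam s - 1 else lam s

lemma nx_le {lam : Fin l → ℕ} (h : Antitone lam) (s : Fin l) : nx lam s ≤ lam s := by
  unfold nx
  split_ifs with h1
  · exact h (by rw [Fin.le_def]; simp)
  · exact Nat.zero_le _

/-- the upper triangular matrix of the row operations -/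
def UT (q : R) (lam : Fin l → ℕ) : Matrix (Fin l) (Fin l) R :=
  Matrix.of fun s u => if u = s then q ^ lam s else
    if (u : ℕ) = s + 1 then (if s ∈ cor lam then 0 else 1) else 0

lemma det_UT (q : R) (lam : Fin l → ℕ) : (UT q lam).det = q ^ ∑ s, lam s := by
  have h : (UT q lam).BlockTriangular id := by
    intro a b hab
    rw [id, id, Fin.lt_def] at hab
    unfold UT
    rw [Matrix.of_apply, if_neg (by rintro rfl; omega), if_neg (by omega)]
  rw [Matrix.det_of_upperTriangular h, ← prod_pow_eq_pow_sum]
  refine prod_congr rfl fun s _ => ?_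
  unfold UT
  rw [Matrix.of_apply, if_pos rfl]

lemma row_rel (q : R) {lam : Fin l → ℕ} (h : Antitone lam) (m : ℕ) (s t : Fin l) :
    q ^ (s : ℕ) * (ent q s t (lam s) (m + 1) -
        (if s ∈ cor lam then ent q s t (lam s - 1) (m + 1) else 0)) =
      ∑ u, UT q lam s u * (q ^ (t : ℕ) * ent q u t (lam u) m) := by
  have hsplit : ∑ u, UT q lam s u * (q ^ (t : ℕ) * ent q u t (lam u) m) =
      q ^ lam s * (q ^ (t : ℕ) * ent q s t (lam s) m) +
      (if hs : (s : ℕ) + 1 < l then (if s ∈ cor lam then 0 else
        q ^ (t : ℕ) * ent q ((s : ℕ) + 1) t (lam ⟨s + 1, hs⟩) m) else 0) := by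
    rw [← add_sum_erase univ _ (mem_univ s)]
    congr 1
    · unfold UT
      rw [Matrix.of_apply, if_pos rfl]
    · by_cases hs : (s : ℕ) + 1 < l
      · rw [dif_pos hs]
        rw [sum_eq_single (⟨(s : ℕ) + 1, hs⟩ : Fin l)]
        · unfold UT
          rw [Matrix.of_apply, if_neg (by rw [Fin.ext_iff]; simp), if_pos rfl]
          split_ifs <;> ring
        · intro u hu hu2
          rw [mem_erase] at hu
          unfold UT
          rw [Matrix.of_apply, if_neg hu.1, if_neg (by
            intro h1
            exact hu2 (Fin.ext h1)), zero_mul]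
        · intro h1
          exact absurd (mem_erase.2 ⟨by rw [ne_eq, Fin.ext_iff]; simp, mem_univ _⟩) h1
      · rw [dif_neg hs]
        refine sum_eq_zero fun u hu => ?_
        rw [mem_erase] at hu
        unfold UT
        rw [Matrix.of_apply, if_neg hu.1, if_neg (by have := u.2; omega), zero_mul]
  rw [hsplit]
  by_cases hc : s ∈ cor lam
  · have hc1 : nx lam s < lam s := (mem_filter.1 hc).2
    obtain ⟨n, hn⟩ : ∃ n, lam s = n + 1 := ⟨lam s - 1, by omega⟩
    rw [if_pos hc, hn, Nat.add_sub_cancel, ent_sub]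
    simp only [if_pos hc]
    split_ifs <;> ring
  · have hc1 : lam s ≤ nx lam s := by
      by_contra hcon
      exact hc (mem_filter.2 ⟨mem_univ _, by omega⟩)
    have hc2 := nx_le h s
    simp only [if_neg hc, sub_zero]
    unfold nx at hc1 hc2
    by_cases hs : (s : ℕ) + 1 < l
    · rw [dif_pos hs] at hc1 hc2
      rw [dif_pos hs, le_antisymm hc2 hc1]
      rcases Nat.eq_zero_or_pos (lam s) with h0 | h0
      · rw [h0, ent_zero, pow_zero, one_mul]
      · obtain ⟨n, hn⟩ : ∃ n, lam s = n + 1 := ⟨lam s - 1, by omega⟩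
        have e1 := ent_sub q (s : ℕ) (t : ℕ) n m
        have e2 := ent_next q (s : ℕ) (t : ℕ) n m
        rw [hn]
        linear_combination e1 + e2
    · rw [dif_neg hs] at hc1 hc2
      rw [dif_neg hs, show lam s = 0 by omega, ent_zero, pow_zero, one_mul,
        ent_n0 q ((s : ℕ) + 1) t m (by have := t.2; omega), if_neg (by have := t.2; omega)]
      ring

/-- the recursion -/
theorem DY_rec [IsDomain R] {q : R} (hq : q ≠ 0) {lam : Fin l → ℕ} (h : Antitone lam) (m : ℕ) :
    ∑ T ∈ (cor lam).powerset, (-1) ^ T.card * DY q (m + 1) (subT lam T) =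
      q ^ (∑ s, lam s) * DY q m lam := by
  classical
  set a : Fin l → Fin l → R := fun s t => ent q s t (lam s) (m + 1) with ha
  set b : Fin l → Fin l → R := fun s t =>
    if s ∈ cor lam then -ent q s t (lam s - 1) (m + 1) else 0 with hb
  have h1 : Matrix.det (Matrix.of (b + a)) =
      ∑ T : Finset (Fin l), Matrix.det (Matrix.of (T.piecewise b a)) :=
    (Matrix.detRowAlternating (n := Fin l) (R := R)).toMultilinearMap.map_add_univ b a
  have h2 : ∀ T : Finset (Fin l), Matrix.det (Matrix.of (T.piecewise b a)) =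
      if T ∈ (cor lam).powerset then (-1) ^ T.card * DY q (m + 1) (subT lam T) else 0 := by
    intro T
    by_cases hT : T ⊆ cor lam
    · rw [if_pos (mem_powerset.2 hT)]
      have e1 : (Matrix.of (T.piecewise b a) : Matrix (Fin l) (Fin l) R) =
          Matrix.of (fun s t => (if s ∈ T then (-1 : R) else 1) *
            (Matrix.of fun s t : Fin l => ent q s t (subT lam T s) (m + 1)) s t) := by
        ext s t
        rw [Matrix.of_apply, Matrix.of_apply, Matrix.of_apply]
        by_cases hs : s ∈ T
        · rw [Finset.piecewise_eq_of_mem _ _ _ hs, if_pos hs, hb]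
          simp only [if_pos (hT hs)]
          unfold subT
          rw [if_pos hs]
          ring
        · rw [Finset.piecewise_eq_of_notMem _ _ _ hs, if_neg hs, ha]
          unfold subT
          rw [if_neg hs]
          ring
      rw [e1, Matrix.det_mul_column]
      unfold DY
      congr 1
      rw [Finset.prod_ite_mem, Finset.univ_inter, Finset.prod_const]
    · rw [if_neg (fun h3 => hT (mem_powerset.1 h3))]
      obtain ⟨s, hs, hs2⟩ := Finset.not_subset.1 hT
      refine Matrix.det_eq_zero_of_row_eq_zero s fun t => ?_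
      rw [Matrix.of_apply, Finset.piecewise_eq_of_mem _ _ _ hs, hb]
      simp only [if_neg hs2]
  have h3 : ∑ T ∈ (cor lam).powerset, (-1) ^ T.card * DY q (m + 1) (subT lam T) =
      Matrix.det (Matrix.of (b + a)) := by
    rw [h1, Finset.sum_congr rfl (fun T _ => h2 T), Finset.sum_ite_mem, Finset.univ_inter]
  rw [h3]
  -- row operations
  have h4 : (Matrix.of fun s t : Fin l => q ^ (s : ℕ) * (Matrix.of (b + a)) s t) =
      UT q lam * (Matrix.of fun u t : Fin l => q ^ (t : ℕ) *
        (Matrix.of fun s t : Fin l => ent q s t (lam s) m) u t) := by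
    ext s t
    rw [Matrix.mul_apply, Matrix.of_apply, Matrix.of_apply, Pi.add_apply, Pi.add_apply]
    simp only [Matrix.of_apply]
    rw [← row_rel q h m s t, ha, hb]
    by_cases hs : s ∈ cor lam
    · simp only [if_pos hs]; ring
    · simp only [if_neg hs]; ring
  have h5 := congrArg Matrix.det h4
  rw [Matrix.det_mul_column, Matrix.det_mul, det_UT, Matrix.det_mul_row] at h5
  have hne : (∏ i : Fin l, q ^ (i : ℕ)) ≠ 0 := prod_ne_zero_iff.2 fun i _ => pow_ne_zero _ hq
  apply mul_left_cancel₀ hne
  rw [h5]
  unfold DY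
  ring

lemma DY_m0 (q : R) (lam : Fin l → ℕ) : DY q 0 lam = 1 := by
  unfold DY
  have h : (Matrix.of fun s t : Fin l => ent q s t (lam s) 0).BlockTriangular OrderDual.toDual := by
    intro a b hab
    have hab2 : a < b := hab
    rw [Fin.lt_def] at hab2
    rw [Matrix.of_apply, ent_m0 q a b (lam a) hab2.le, if_neg (by omega)]
  rw [Matrix.det_of_lowerTriangular _ h]
  refine prod_eq_one fun s _ => ?_
  rw [Matrix.of_apply, ent_m0 q s s (lam s) le_rfl, if_pos rfl]

lemma DY_n0 (q : R) (m : ℕ) {lam : Fin l → ℕ} (h0 : ∀ s, lam s = 0) : DY q m lam = 1 := by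
  unfold DY
  have h : (Matrix.of fun s t : Fin l => ent q s t (lam s) m).BlockTriangular id := by
    intro a b hab
    rw [id, id, Fin.lt_def] at hab
    rw [Matrix.of_apply, h0, ent_n0 q a b m hab.le, if_neg (by omega)]
  rw [Matrix.det_of_upperTriangular h]
  refine prod_eq_one fun s _ => ?_
  rw [Matrix.of_apply, h0, ent_n0 q s s m le_rfl, if_pos rfl]

end alg

end Pool.Agent.GaussPoset.Yg
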