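import Pool.Agent.W_448fy_h63.YC
import Pool.Agent.W_MP_448cb3_h96.Window

/-! Order of the window polynomial of a Young shape (MP_448cb3_co). -/

namespace Pool.Agent.GaussPoset.Yg

set_option linter.unusedSectionVars false

open Finset

universe u

section pol

/-- the variable of the coefficient ring -/
noncomputable abbrev qq : PowerSeries ℤ := PowerSeries.X

lemma qq_ne : (qq : PowerSeries ℤ) ≠ 0 := PowerSeries.X_ne_zero

/-- one factor: `1 - q^(m + n - u)` up to a power of `q`, as a polynomial in the window variable -/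
noncomputable def gf (i n u : ℕ) : Polynomial (PowerSeries ℤ) :=
  Polynomial.C (qq ^ (i + 1 + u - n)) + Polynomial.C (qq ^ (n - (i + 1 + u))) * Polynomial.X

/-- the evaluation points -/
noncomputable def pt (i m : ℕ) : PowerSeries ℤ := -qq ^ (i + m + 1)

lemma gf_eval (i n u m : ℕ) (h : u ≤ m + n) :
    (gf i n u).eval (pt i m) = qq ^ (i + 1 + u - n) * (1 - qq ^ (m + n - u)) := by
  unfold gf pt
  rw [Polynomial.eval_add, Polynomial.eval_mul, Polynomial.eval_C, Polynomial.eval_C,
    Polynomial.eval_X]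
  have e : (qq : PowerSeries ℤ) ^ (n - (i + 1 + u)) * qq ^ (i + m + 1) =
      qq ^ (i + 1 + u - n) * qq ^ (m + n - u) := by
    rw [← pow_add, ← pow_add]
    congr 1
    omega
  linear_combination -e

lemma gf_prod_eval (i n K m : ℕ) :
    (∏ u ∈ range K, gf i n u).eval (pt i m) =
      qq ^ (∑ u ∈ range K, (i + 1 + u - n)) * ∏ u ∈ range K, (1 - qq ^ (m + n - u)) := by
  rw [Polynomial.eval_prod]
  by_cases hK : K ≤ m + n + 1
  · rw [← prod_pow_eq_pow_sum, ← prod_mul_distrib]
    refine prod_congr rfl fun u hu => ?_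
    rw [mem_range] at hu
    exact gf_eval i n u m (by omega)
  · have h1 : m + n ∈ range K := mem_range.2 (by omega)
    rw [prod_eq_zero h1, prod_eq_zero h1, mul_zero]
    · rw [Nat.sub_self, pow_zero, sub_self]
    · rw [gf_eval i n (m + n) m le_rfl, Nat.sub_self, pow_zero, sub_self, mul_zero]

/-- common denominator -/
noncomputable def dn (N : ℕ) : PowerSeries ℤ := ∏ u ∈ range N, (1 - qq ^ (u + 1))

lemma dn_ne (N : ℕ) : dn N ≠ 0 := by
  unfold dn
  rw [prod_ne_zero_iff]
  intro u _ h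
  have h1 := congrArg (PowerSeries.constantCoeff (R := ℤ)) h
  simp at h1

/-- entry polynomial -/
noncomputable def ep (i N0 N1 s t n : ℕ) : Polynomial (PowerSeries ℤ) :=
  if s ≤ n + t then
    Polynomial.C (qq ^ tr s t * qq ^ (N0 - ∑ u ∈ range (n + t - s), (i + 1 + u - n)) *
      ∏ u ∈ Ico (n + t - s) N1, (1 - qq ^ (u + 1))) * ∏ u ∈ range (n + t - s), gf i n u
  else 0

lemma ep_eval {i N0 N1 s t n m : ℕ} (h0 : ∑ u ∈ range (n + t - s), (i + 1 + u - n) ≤ N0)
    (h1 : n + t - s ≤ N1) :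
    (ep i N0 N1 s t n).eval (pt i m) = qq ^ N0 * dn N1 * ent qq s t n m := by
  unfold ep ent
  split_ifs with h
  · obtain ⟨K, hK⟩ : ∃ K, n + t - s = K := ⟨_, rfl⟩
    rw [hK] at h0 h1 ⊢
    rw [Polynomial.eval_mul, Polynomial.eval_C, gf_prod_eval, ← qb_prod]
    have e1 : dn N1 = (∏ u ∈ range K, (1 - (qq : PowerSeries ℤ) ^ (u + 1))) *
        ∏ u ∈ Ico K N1, (1 - qq ^ (u + 1)) := by
      unfold dn
      rw [prod_range_mul_prod_Ico _ h1]
    have e2 : (qq : PowerSeries ℤ) ^ N0 = qq ^ (N0 - ∑ u ∈ range K, (i + 1 + u - n)) *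
        qq ^ (∑ u ∈ range K, (i + 1 + u - n)) := by
      rw [← pow_add]
      congr 1
      omega
    rw [e1, e2]
    ring
  · simp

lemma ep_dvd {i N0 N1 s t n : ℕ} (hs : s ≤ i) (hn : i + 1 ≤ n) :
    (1 + Polynomial.X : Polynomial (PowerSeries ℤ)) ∣ ep i N0 N1 s t n := by
  unfold ep
  split_ifs with h
  · refine Dvd.dvd.mul_left ?_ _
    have h1 : n - (i + 1) ∈ range (n + t - s) := mem_range.2 (by omega)
    refine dvd_trans ?_ (dvd_prod_of_mem _ h1)
    unfold gf
    rw [show i + 1 + (n - (i + 1)) - n = 0 by omega, show n - (i + 1 + (n - (i + 1))) = 0 by omega]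
    simp
  · exact dvd_zero _

/-- cancel a nonzero constant -/
lemma dvd_of_C_mul {R : Type*} [CommRing R] [IsDomain R] {c : R} (hc : c ≠ 0)
    {p f : Polynomial R} (hp : p.Monic) (h : p ∣ Polynomial.C c * f) : p ∣ f := by
  rw [← Polynomial.modByMonic_eq_zero_iff_dvd hp] at h ⊢
  rw [← Polynomial.smul_eq_C_mul, Polynomial.smul_modByMonic] at h
  exact (smul_eq_zero.1 h).resolve_left hc

variable {l n : ℕ}

/-- the determinant of the entry polynomials -/
theorem det_ep_eval {lam : Fin l → ℕ} (hn : ∀ s, lam s ≤ n) (i m : ℕ) :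
    (Matrix.det (Matrix.of fun s t : Fin l =>
      ep i ((n + l) * (i + 1 + (n + l))) (n + l) s t (lam s))).eval (pt i m) =
      (qq ^ ((n + l) * (i + 1 + (n + l))) * dn (n + l)) ^ l * DY qq m lam := by
  have h1 := (Polynomial.evalRingHom (pt i m)).map_det (Matrix.of fun s t : Fin l =>
      ep i ((n + l) * (i + 1 + (n + l))) (n + l) s t (lam s))
  rw [Polynomial.coe_evalRingHom] at h1
  rw [h1]
  have h2 : (Polynomial.evalRingHom (pt i m)).mapMatrix (Matrix.of fun s t : Fin l =>
      ep i ((n + l) * (i + 1 + (n + l))) (n + l) s t (lam s)) =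
      Matrix.of (fun s t => (fun _ : Fin l => qq ^ ((n + l) * (i + 1 + (n + l))) * dn (n + l)) s *
        (Matrix.of fun s t : Fin l => ent qq s t (lam s) m) s t) := by
    refine Matrix.ext fun s t => ?_
    rw [RingHom.mapMatrix_apply, Matrix.map_apply, Matrix.of_apply, Matrix.of_apply,
      Matrix.of_apply, Polynomial.coe_evalRingHom]
    have h3 := hn s
    have h4 := t.2
    refine ep_eval (i := i) (N1 := n + l) (s := s) (t := t) (n := lam s) (m := m) ?_ (by omega)
    calc ∑ u ∈ range (lam s + t - s), (i + 1 + u - lam s)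
        ≤ ∑ u ∈ range (lam s + t - s), (i + 1 + (n + l)) := by
          refine sum_le_sum fun u hu => ?_
          rw [mem_range] at hu
          omega
      _ = (lam s + t - s) * (i + 1 + (n + l)) := by rw [sum_const, card_range, smul_eq_mul]
      _ ≤ (n + l) * (i + 1 + (n + l)) := Nat.mul_le_mul_right _ (by omega)
  rw [h2, Matrix.det_mul_column, prod_const, card_univ, Fintype.card_fin]
  rfl

theorem det_ep_dvd {lam : Fin l → ℕ} {i k N0 N1 : ℕ} (hk : k ≤ l)
    (hk2 : ∀ s : Fin l, (s : ℕ) < k → (s : ℕ) ≤ i ∧ i + 1 ≤ lam s) :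
    (1 + Polynomial.X : Polynomial (PowerSeries ℤ)) ^ k ∣
      Matrix.det (Matrix.of fun s t : Fin l => ep i N0 N1 s t (lam s)) := by
  classical
  have h1 : ∀ s t : Fin l, ∃ c, ep i N0 N1 s t (lam s) =
      (if (s : ℕ) < k then (1 + Polynomial.X : Polynomial (PowerSeries ℤ)) else 1) * c := by
    intro s t
    by_cases hs : (s : ℕ) < k
    · rw [if_pos hs]
      exact ep_dvd (hk2 s hs).1 (hk2 s hs).2
    · rw [if_neg hs]
      exact ⟨_, (one_mul _).symm⟩
  choose c hc using h1
  have h2 : (Matrix.of fun s t : Fin l => ep i N0 N1 s t (lam s)) =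
      Matrix.of (fun s t => (fun s : Fin l => if (s : ℕ) < k then
        (1 + Polynomial.X : Polynomial (PowerSeries ℤ)) else 1) s * (Matrix.of c) s t) := by
    ext1 s t
    rw [Matrix.of_apply, Matrix.of_apply, Matrix.of_apply, hc s t]
  rw [h2, Matrix.det_mul_column]
  refine Dvd.dvd.mul_right ?_ _
  rw [prod_ite, prod_const, prod_const_one, mul_one]
  have h3 : (univ.filter (fun s : Fin l => (s : ℕ) < k)).card = k := by
    have h4 : univ.filter (fun s : Fin l => (s : ℕ) < k) =
        (univ : Finset (Fin k)).map (Fin.castLEEmb hk) := by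
      ext s
      rw [mem_filter, mem_map]
      constructor
      · rintro ⟨-, h⟩
        exact ⟨⟨s, h⟩, mem_univ _, Fin.ext rfl⟩
      · rintro ⟨a, -, rfl⟩
        exact ⟨mem_univ _, a.2⟩
    rw [h4, card_map, card_univ, Fintype.card_fin]
  rw [h3]

end pol

section young

variable {Q : Type u} [Fintype Q] [PartialOrder Q] [DecidableEq Q] {l n : ℕ}

/-- the polynomial `U_m` of a poset isomorphic to the cells of a Young shape -/
theorem U_young {lam : Fin l → ℕ} (h : Antitone lam)
    (e : Q ≃ {p : Fin l × Fin n // (p.2 : ℕ) < lam p.1})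
    (he : ∀ x y : Q, x ≤ y ↔ (e y : Fin l × Fin n) ≤ e x) (m : ℕ) :
    ((U Q m : Polynomial ℤ) : PowerSeries ℤ) = UY qq n m lam := by
  classical
  have h1 : ((U Q m : Polynomial ℤ) : PowerSeries ℤ) =
      ∑ σ ∈ univ.filter (fun σ : Q → Fin (m + 1) => Monotone σ), qq ^ (∑ x, (σ x : ℕ)) := by
    unfold U
    rw [← Polynomial.coeToPowerSeries.ringHom_apply, map_sum]
    refine sum_congr ?_ fun σ _ => ?_
    · ext σ
      simp
    · rw [map_pow]
      simp
  rw [h1]
  unfold UY
  refine sum_bij' (fun σ _ p => if hp : (p.2 : ℕ) < lam p.1 then (σ (e.symm ⟨p, hp⟩) : ℕ) else 0)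
    (fun f _ x => (⟨f (e x) % (m + 1), Nat.mod_lt _ (Nat.succ_pos m)⟩ : Fin (m + 1)))
    ?_ ?_ ?_ ?_ ?_
  · intro σ hσ
    rw [mem_filter] at hσ
    rw [mem_FY]
    refine ⟨fun p => ?_, fun p p' hp => ?_, fun p hp => ?_⟩
    · split_ifs with hp
      · have := (σ (e.symm ⟨p, hp⟩)).2
        omega
      · exact Nat.zero_le _
    · simp only
      by_cases hp' : (p'.2 : ℕ) < lam p'.1
      · have h2 : (p.2 : ℕ) < lam p.1 := by
          have h3 := h hp.1
          have h4 : (p.2 : ℕ) ≤ p'.2 := hp.2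
          omega
        rw [dif_pos hp', dif_pos h2]
        have h3 : e.symm ⟨p', hp'⟩ ≤ e.symm ⟨p, h2⟩ := by
          rw [he, Equiv.apply_symm_apply, Equiv.apply_symm_apply]
          exact hp
        exact hσ.2 h3
      · rw [dif_neg hp']
        exact Nat.zero_le _
    · rw [dif_neg (by omega)]
  · intro f hf
    rw [mem_FY] at hf
    rw [mem_filter]
    refine ⟨mem_univ _, fun x y hxy => ?_⟩
    rw [Fin.le_def]
    simp only
    rw [Nat.mod_eq_of_lt (by have := hf.1 (e x); omega),
      Nat.mod_eq_of_lt (by have := hf.1 (e y); omega)]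
    exact hf.2.1 ((he x y).1 hxy)
  · intro σ hσ
    funext x
    apply Fin.ext
    simp only
    rw [dif_pos (e x).2]
    have : e.symm ⟨(e x : Fin l × Fin n), (e x).2⟩ = x := e.symm_apply_apply x
    rw [this]
    exact Nat.mod_eq_of_lt (σ x).2
  · intro f hf
    rw [mem_FY] at hf
    funext p
    simp only
    split_ifs with hp
    · rw [Equiv.apply_symm_apply]
      have h3 := hf.1 p
      exact Nat.mod_eq_of_lt (show f p < m + 1 by omega)
    · exact (hf.2.2 p (by omega)).symm
  · intro σ hσ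
    congr 1
    have h2 : ∑ p : Fin l × Fin n, (if hp : (p.2 : ℕ) < lam p.1 then
        (σ (e.symm ⟨p, hp⟩) : ℕ) else 0) =
        ∑ p : {p : Fin l × Fin n // (p.2 : ℕ) < lam p.1}, (σ (e.symm p) : ℕ) := by
      have h3 : ∑ p : Fin l × Fin n, (if hp : (p.2 : ℕ) < lam p.1 then
          (σ (e.symm ⟨p, hp⟩) : ℕ) else 0) =
          ∑ p ∈ univ.filter (fun p : Fin l × Fin n => (p.2 : ℕ) < lam p.1),
          (if hp : (p.2 : ℕ) < lam p.1 then (σ (e.symm ⟨p, hp⟩) : ℕ) else 0) := by
        symm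
        refine sum_subset (filter_subset _ _) fun p _ hp => ?_
        rw [mem_filter, not_and] at hp
        rw [dif_neg (hp (mem_univ _))]
      rw [h3, Finset.sum_subtype (p := fun p : Fin l × Fin n => (p.2 : ℕ) < lam p.1) _
        (fun p => by rw [mem_filter]; simp)]
      refine sum_congr rfl fun p _ => ?_
      rw [dif_pos p.2]
    rw [h2]
    exact (Equiv.sum_comp e.symm (fun x => (σ x : ℕ))).symm

/-- the order of the window polynomial of a Young shape -/
theorem young_dvd {lam : Fin l → ℕ} (h : Antitone lam) (hn : ∀ s, lam s ≤ n)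
    (e : Q ≃ {p : Fin l × Fin n // (p.2 : ℕ) < lam p.1})
    (he : ∀ x y : Q, x ≤ y ↔ (e y : Fin l × Fin n) ≤ e x) {i k : ℕ} (hk : k ≤ l)
    (hk2 : ∀ s : Fin l, (s : ℕ) < k → (s : ℕ) ≤ i ∧ i + 1 ≤ lam s) :
    (1 + Polynomial.X : Polynomial (PowerSeries ℤ)) ^ k ∣ W Q i := by
  have hmon : ((1 + Polynomial.X : Polynomial (PowerSeries ℤ)) ^ k).Monic := by
    apply Polynomial.Monic.pow
    rw [add_comm]
    exact Polynomial.monic_X_add_C 1
  have hc : ((qq ^ ((n + l) * (i + 1 + (n + l))) * dn (n + l)) ^ l : PowerSeries ℤ) ≠ 0 :=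
    pow_ne_zero _ (mul_ne_zero (pow_ne_zero _ qq_ne) (dn_ne _))
  refine dvd_of_C_mul hc hmon ?_
  have key : Polynomial.C ((qq ^ ((n + l) * (i + 1 + (n + l))) * dn (n + l)) ^ l) * W Q i =
      Polynomial.C (qq ^ (i * Fintype.card Q)) * Matrix.det (Matrix.of fun s t : Fin l =>
        ep i ((n + l) * (i + 1 + (n + l))) (n + l) s t (lam s)) := by
    apply Polynomial.eq_of_infinite_eval_eq
    have hinj : Function.Injective (fun m : ℕ => pt i m) := by
      intro a b hab
      unfold pt at hab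
      simp only [neg_inj] at hab
      have := congrArg PowerSeries.order hab
      rw [PowerSeries.order_X_pow, PowerSeries.order_X_pow] at this
      have h2 : i + a + 1 = i + b + 1 := by exact_mod_cast this
      omega
    refine Set.infinite_of_injective_forall_mem hinj fun m => ?_
    simp only [Set.mem_setOf_eq]
    rw [Polynomial.eval_mul, Polynomial.eval_C, Polynomial.eval_mul, Polynomial.eval_C,
      det_ep_eval hn, ← UY_eq qq_ne _ m lam h hn le_rfl, ← U_young h e he m]
    have h3 : (W Q i).eval (pt i m) = qq ^ (i * Fintype.card Q) *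
        ((U Q m : Polynomial ℤ) : PowerSeries ℤ) := W_eval i m
    rw [h3]
    ring
  rw [key]
  exact Dvd.dvd.mul_left (det_ep_dvd hk hk2) _

end young

end Pool.Agent.GaussPoset.Yg
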